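import Mathlib

namespace Pool.Agent.Results.MP_71efc4_nt.Counter

section Defs
variable {G : Type} [AddCommGroup G]

/-- `ΣA`: all subset sums -/
def Sig (A : Finset G) : Set G := {g | ∃ B ⊆ A, ∑ b ∈ B, b = g}

/-- `Σ*A`: all nonempty subset sums -/
def SigStar (A : Finset G) : Set G := {g | ∃ B ⊆ A, B.Nonempty ∧ ∑ b ∈ B, b = g}

noncomputable def c0 (G : Type) [AddCommGroup G] : ℕ :=
  sInf {m | ∀ A : Finset G, 0 ∉ A → m ≤ A.card → Sig A = Set.univ}

noncomputable def c (G : Type) [AddCommGroup G] : ℕ :=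
  sInf {m | ∀ A : Finset G, 0 ∉ A → m ≤ A.card → SigStar A = Set.univ}

def P2 (A : Finset G) : Prop := 0 ∉ A ∧ A.card = c0 G - 1 ∧ Sig A ≠ Set.univ

def P4 (A : Finset G) : Prop := 0 ∉ A ∧ A.card = c G - 1 ∧ SigStar A ≠ Set.univ

end Defs

def sums : List (ZMod 10) → List (ZMod 10)
  | [] => []
  | a :: l => a :: (sums l ++ (sums l).map (a + ·))

lemma sums_sub : ∀ (l : List (ZMod 10)), l.Nodup → ∀ g ∈ sums l, g ∈ SigStar l.toFinset
  | [], _, g, hg => by simp [sums] at hg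
  | a :: l, h, g, hg => by
    rw [List.nodup_cons] at h
    simp only [sums, List.mem_cons, List.mem_append, List.mem_map] at hg
    rcases hg with rfl | hg | ⟨x, hx, rfl⟩
    · exact ⟨{g}, by simp, by simp, by simp⟩
    · obtain ⟨B, h1, h2, h3⟩ := sums_sub l h.2 g hg
      exact ⟨B, h1.trans (by simp), h2, h3⟩
    · obtain ⟨B, h1, h2, h3⟩ := sums_sub l h.2 x hx
      have ha : a ∉ B := fun hc => h.1 (List.mem_toFinset.1 (h1 hc))
      exact ⟨insert a B, by simpa using Finset.insert_subset_insert a h1, by simp,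
        by rw [Finset.sum_insert ha, h3]⟩

lemma five : ∀ l ∈ ([1, 2, 3, 4, 5, 6, 7, 8, 9] : List (ZMod 10)).sublistsLen 5,
    ∀ g : ZMod 10, g ∈ sums l := by decide +kernel

lemma not_univ : SigStar ({1, 3, 4, 8} : Finset (ZMod 10)) ≠ Set.univ := by
  intro h
  obtain ⟨B, h1, h2, h3⟩ : (0 : ZMod 10) ∈ SigStar {1, 3, 4, 8} := h ▸ Set.mem_univ _
  have : ∀ B ∈ ({1, 3, 4, 8} : Finset (ZMod 10)).powerset, B.Nonempty → ∑ b ∈ B, b ≠ 0 := by
    decide +kernel
  exact this B (Finset.mem_powerset.2 h1) h2 h3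

lemma c_eq : c (ZMod 10) = 5 := by
  have h5 : ∀ A : Finset (ZMod 10), 0 ∉ A → 5 ≤ A.card → SigStar A = Set.univ := by
    intro A h0 hA
    obtain ⟨B, hB, hc⟩ := Finset.exists_subset_card_eq hA
    have hn : ([1, 2, 3, 4, 5, 6, 7, 8, 9] : List (ZMod 10)).Nodup := by decide
    have hm : ∀ x : ZMod 10, x ≠ 0 → x ∈ ([1, 2, 3, 4, 5, 6, 7, 8, 9] : List (ZMod 10)) := by
      decide
    set l := ([1, 2, 3, 4, 5, 6, 7, 8, 9] : List (ZMod 10)).filter (· ∈ B) with hl
    have h1 : l.toFinset = B := by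
      ext x
      simp only [hl, List.mem_toFinset, List.mem_filter, decide_eq_true_eq]
      exact ⟨fun h => h.2, fun h => ⟨hm x fun hx => h0 (hB (hx ▸ h)), h⟩⟩
    have h2 : l.Nodup := hn.filter _
    have h3 : l.length = 5 := by rw [← List.toFinset_card_of_nodup h2, h1, hc]
    refine Set.eq_univ_of_forall fun g => ?_
    obtain ⟨C, c1, c2, c3⟩ := sums_sub l h2 g
      (five l (List.mem_sublistsLen.2 ⟨List.filter_sublist, h3⟩) g)
    exact ⟨C, (h1 ▸ c1).trans hB, c2, c3⟩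
  refine le_antisymm (Nat.sInf_le h5) (le_csInf ⟨5, h5⟩ fun m hm => ?_)
  by_contra hlt
  exact not_univ (hm _ (by decide) (le_trans (by omega) (show 4 ≤ _ by decide)))

theorem result : ∃ (G : Type) (_ : AddCommGroup G) (_ : Finite G) (A : Finset G),
    10 ≤ Nat.card G ∧ P4 A ∧ ¬ P2 A := by
  refine ⟨ZMod 10, inferInstance, inferInstance, {1, 3, 4, 8}, by simp,
    ⟨by decide, by rw [c_eq]; decide, not_univ⟩, fun h => h.2.2 ?_⟩
  have : ∀ g : ZMod 10, ∃ B ∈ ({1, 3, 4, 8} : Finset (ZMod 10)).powerset, ∑ b ∈ B, b = g := by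
    decide +kernel
  refine Set.eq_univ_of_forall fun g => ?_
  obtain ⟨B, h1, h2⟩ := this g
  exact ⟨B, Finset.mem_powerset.1 h1, h2⟩

end Pool.Agent.Results.MP_71efc4_nt.Counter
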